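import Pool.Agent.H21.CP.Qc

/-!
MP_8923e7_nt, project CP.  If `MED κ Q k` holds with `κ k > 1`, then for almost all admissible `k`-tuples two of
the `N + a_j` are consecutive primes and all have property `Q`, infinitely often.
-/

namespace Pool.Agent.H21.CP

open Finset Pool.Agent.H21.QT

/-- infinitely often `N + a_i < N + a_j` are consecutive primes and all `N + a_l` have property `Q` -/
def GapQ (Q : ℕ → Prop) {k : ℕ} (a : Fin k → ℤ) (i j : Fin k) : Prop :=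
  a i < a j ∧ {N : ℕ | (((N : ℤ) + a i).toNat.Prime ∧ ((N : ℤ) + a j).toNat.Prime ∧
    ∀ z : ℤ, a i < z → z < a j → ¬ ((N : ℤ) + z).toNat.Prime) ∧
    ∀ l, Q ((N : ℤ) + a l).toNat}.Infinite

/-- a minimal pair -/
theorem gq_pair {k : ℕ} (V : Fin k → Finset ℤ) (hd : ∀ j j', j ≠ j' → Disjoint (V j) (V j'))
    (D N : ℕ) (hD : ∀ j, ∀ x ∈ V j, |x| ≤ (D : ℤ))
    (hN : ∀ y : ℤ, |y| ≤ D → ((N : ℤ) + y).toNat.Prime → ∃ j, y ∈ V j)
    {i₀ j₀ : Fin k} (hij : i₀ ≠ j₀) (hi : ∃ x ∈ V i₀, ((N : ℤ) + x).toNat.Prime)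
    (hj : ∃ x ∈ V j₀, ((N : ℤ) + x).toNat.Prime) :
    ∃ x y : ℤ, x < y ∧ (∃ i j, i ≠ j ∧ x ∈ V i ∧ y ∈ V j) ∧ ((N : ℤ) + x).toNat.Prime ∧
      ((N : ℤ) + y).toNat.Prime ∧ ∀ z : ℤ, x < z → z < y → ¬ ((N : ℤ) + z).toNat.Prime := by
  classical
  obtain ⟨P, hP⟩ : ∃ P : Finset ℤ, P = (univ.biUnion V).filter
    (fun x => ((N : ℤ) + x).toNat.Prime) := ⟨_, rfl⟩
  have hPm : ∀ x, x ∈ P ↔ (∃ j, x ∈ V j) ∧ ((N : ℤ) + x).toNat.Prime := by
    intro x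
    rw [hP, Finset.mem_filter, Finset.mem_biUnion]
    simp only [Finset.mem_univ, true_and]
  obtain ⟨Q, hQ⟩ : ∃ Q : Finset (ℤ × ℤ), Q = (P ×ˢ P).filter
    (fun p => p.1 < p.2 ∧ ∃ i j, i ≠ j ∧ p.1 ∈ V i ∧ p.2 ∈ V j) := ⟨_, rfl⟩
  have hQm : ∀ p, p ∈ Q ↔ (p.1 ∈ P ∧ p.2 ∈ P) ∧ p.1 < p.2 ∧
      ∃ i j, i ≠ j ∧ p.1 ∈ V i ∧ p.2 ∈ V j := by
    intro p
    rw [hQ, Finset.mem_filter, Finset.mem_product]
  have hQne : Q.Nonempty := by
    obtain ⟨x, hx, hxp⟩ := hi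
    obtain ⟨y, hy, hyp⟩ := hj
    have hne : x ≠ y := by
      rintro rfl
      exact Finset.disjoint_left.1 (hd _ _ hij) hx hy
    rcases lt_or_gt_of_ne hne with h | h
    · exact ⟨(x, y), (hQm _).2 ⟨⟨(hPm x).2 ⟨⟨_, hx⟩, hxp⟩, (hPm y).2 ⟨⟨_, hy⟩, hyp⟩⟩, h,
        ⟨i₀, j₀, hij, hx, hy⟩⟩⟩
    · exact ⟨(y, x), (hQm _).2 ⟨⟨(hPm y).2 ⟨⟨_, hy⟩, hyp⟩, (hPm x).2 ⟨⟨_, hx⟩, hxp⟩⟩, h,
        ⟨j₀, i₀, hij.symm, hy, hx⟩⟩⟩
  obtain ⟨⟨x, y⟩, hxy, hmin⟩ := Finset.exists_min_image Q (fun p => p.2 - p.1) hQne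
  obtain ⟨⟨hxP, hyP⟩, hlt, i, j, hij', hx, hy⟩ := (hQm _).1 hxy
  simp only at hxP hyP hlt hx hy hmin
  refine ⟨x, y, hlt, ⟨i, j, hij', hx, hy⟩, ((hPm x).1 hxP).2, ((hPm y).1 hyP).2, ?_⟩
  intro z hxz hzy hz
  have hzD : |z| ≤ (D : ℤ) := by
    have h1 := hD i x hx
    have h2 := hD j y hy
    rw [abs_le] at h1 h2 ⊢
    constructor <;> linarith
  obtain ⟨l, hl⟩ := hN z hzD hz
  have hzP : z ∈ P := (hPm z).2 ⟨⟨l, hl⟩, hz⟩
  by_cases hli : l = i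
  · have hlj : l ≠ j := by
      rw [hli]
      exact hij'
    have h3 : (z, y) ∈ Q := (hQm _).2 ⟨⟨hzP, hyP⟩, hzy, ⟨l, j, hlj, hl, hy⟩⟩
    have h4 := hmin _ h3
    simp only at h4
    linarith
  · have h3 : (x, z) ∈ Q := (hQm _).2 ⟨⟨hxP, hzP⟩, hxz, ⟨i, l, fun h => hli h.symm, hx, hl⟩⟩
    have h4 := hmin _ h3
    simp only at h4
    linarith

open Classical in
theorem cons_chen (κ : ℝ) (Q : ℕ → Prop) (hQ : ∀ p : ℕ, p.Prime → Q p) (k : ℕ) (hk : 1 < κ * k)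
    (hM : MED κ Q k) : ∃ δ C : ℝ, 0 < δ ∧ δ ≤ 1 ∧ 0 ≤ C ∧
    ∀ (n : ℕ) (A : Fin k → Finset ℤ), 1 ≤ n → (∀ j, (A j).card ≤ n) →
      (((Fintype.piFinset A).filter (fun a => AdT a ∧ ∀ i j, ¬ GapQ Q a i j)).card : ℝ) ≤
        C * (n : ℝ) ^ ((k : ℝ) - δ) := by
  have hk1 : 1 ≤ k := by
    rcases Nat.eq_zero_or_pos k with h0 | h0
    · exfalso
      rw [h0] at hk
      simp only [Nat.cast_zero, mul_zero] at hk
      linarith
    · exact h0
  have hkR : (1 : ℝ) ≤ k := by exact_mod_cast hk1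
  obtain ⟨η, hη⟩ : ∃ η : ℝ, η = (κ * k - 1) / (2 * k * (k + 1)) := ⟨_, rfl⟩
  have hη0 : 0 < η := by
    rw [hη]
    apply div_pos (by linarith) (by positivity)
  have hη1 : (k : ℝ) * ((k + 1) * η) = (κ * k - 1) / 2 := by
    rw [hη]
    field_simp
  obtain ⟨s, hs, hl⟩ := blk_chen κ Q k hM η hη0
  obtain ⟨δ, C, hδ, hδ1, hC, H⟩ := hom_box k s 1 hk1 hs
  refine ⟨δ, C, hδ, hδ1, hC, ?_⟩
  intro n A hn hA
  suffices hmain : ∀ V : Fin k → Finset ℤ, (∀ j j', j ≠ j' → Disjoint (V j) (V j')) →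
      (∀ j, (V j).card = s) → AdB V → (∀ a ∈ Fintype.piFinset V, ∀ i j, ¬ GapQ Q a i j) →
      False by
    have h0 := H Unit inferInstance (by simp) (fun _ => ()) (fun a => ∀ i j, ¬ GapQ Q a i j)
      (fun V h1 h2 h3 h4 _ => hmain V h1 h2 h3 h4) n A hn hA
    convert h0
  intro V hdis hcard hadm hbad
  -- the bound
  obtain ⟨D, hD⟩ : ∃ D : ℕ, ∀ j, ∀ x ∈ V j, |x| ≤ (D : ℤ) := by
    refine ⟨∑ j, ∑ x ∈ V j, x.natAbs, fun j x hx => ?_⟩
    have h1 : x.natAbs ≤ ∑ j, ∑ x ∈ V j, x.natAbs :=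
      (Finset.single_le_sum (f := fun x : ℤ => x.natAbs) (fun _ _ => Nat.zero_le _) hx).trans
        (Finset.single_le_sum (f := fun j => ∑ x ∈ V j, x.natAbs) (fun _ _ => Nat.zero_le _)
          (Finset.mem_univ j))
    rw [Int.abs_eq_natAbs]
    exact_mod_cast h1
  -- finitely many exceptions
  obtain ⟨N0, hN0⟩ : ∃ N0 : ℕ, ∀ a ∈ Fintype.piFinset V, ∀ i j, a i < a j → ∀ N : ℕ,
      ((((N : ℤ) + a i).toNat.Prime ∧ ((N : ℤ) + a j).toNat.Prime ∧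
        ∀ z : ℤ, a i < z → z < a j → ¬ ((N : ℤ) + z).toNat.Prime) ∧
        ∀ l, Q ((N : ℤ) + a l).toNat) → N ≤ N0 := by
    have hfin : (⋃ a ∈ Fintype.piFinset V, ⋃ i : Fin k, ⋃ j : Fin k,
        (if a i < a j then {N : ℕ | (((N : ℤ) + a i).toNat.Prime ∧
          ((N : ℤ) + a j).toNat.Prime ∧
          ∀ z : ℤ, a i < z → z < a j → ¬ ((N : ℤ) + z).toNat.Prime) ∧
          ∀ l, Q ((N : ℤ) + a l).toNat} else ∅)).Finite := by
      refine Set.Finite.biUnion (Fintype.piFinset V).finite_toSet ?_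
      intro a ha
      refine Set.finite_iUnion fun i => Set.finite_iUnion fun j => ?_
      split_ifs with h
      · by_contra hcon
        exact hbad a ha i j ⟨h, hcon⟩
      · exact Set.finite_empty
    obtain ⟨N0, hN0⟩ := hfin.bddAbove
    refine ⟨N0, fun a ha i j hij N hN => ?_⟩
    apply hN0
    simp only [Set.mem_iUnion]
    refine ⟨a, ha, i, j, ?_⟩
    rw [if_pos hij]
    exact hN
  obtain ⟨T, μ, hT0, hμ0, hμ1, hex, -, hμ4, hμ5⟩ := hl V hdis hcard hadm D N0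
  let T' : Finset ℕ := T.filter (fun N : ℕ => ∀ j, ∃ x ∈ V j, Q ((N : ℤ) + x).toNat)
  -- some good `N` has primes in two blocks
  obtain ⟨N, hN, i₀, j₀, hij, hi, hj⟩ : ∃ N ∈ T', ∃ i j, i ≠ j ∧
      (∃ x ∈ V i, ((N : ℤ) + x).toNat.Prime) ∧ ∃ x ∈ V j, ((N : ℤ) + x).toNat.Prime := by
    by_contra hcon
    push Not at hcon
    have h1 : ∀ j, κ - (k + 1) * η ≤ ∑ N ∈ T', if ∃ x ∈ V j, ((N : ℤ) + x).toNat.Prime then μ N else 0 := by
      intro j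
      have h3 := good_mass T μ hμ0 hμ1 (fun j N => ∃ x ∈ V j, ((N : ℤ) + x).toNat.Prime)
        (fun j N => ∃ x ∈ V j, Q ((N : ℤ) + x).toNat) κ η
        (fun j => by
          refine (hμ4 j).trans (le_of_eq ?_)
          apply sum_congr _ fun _ _ => rfl
          ext N
          simp only [mem_filter])
        (fun j => by
          refine (hμ5 j).trans (le_of_eq ?_)
          apply sum_congr _ fun _ _ => rfl
          ext N
          simp only [mem_filter]) j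
      rw [← sum_filter]
      refine h3.trans (le_of_eq ?_)
      apply sum_congr _ fun _ _ => rfl
      ext N
      simp only [T', mem_filter]
    have h2 : ∑ _j : Fin k, (κ - (k + 1) * η) ≤ ∑ j : Fin k, ∑ N ∈ T',
        if ∃ x ∈ V j, ((N : ℤ) + x).toNat.Prime then μ N else 0 := sum_le_sum fun j _ => h1 j
    rw [sum_comm, sum_const, card_univ, Fintype.card_fin, nsmul_eq_mul] at h2
    have h3 : ∑ N ∈ T', ∑ j : Fin k, (if ∃ x ∈ V j, ((N : ℤ) + x).toNat.Prime then μ N else 0) ≤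
        ∑ N ∈ T', μ N := by
      refine sum_le_sum fun N hN => ?_
      rw [← sum_filter, sum_const, nsmul_eq_mul]
      have h4 : (univ.filter fun j => ∃ x ∈ V j, ((N : ℤ) + x).toNat.Prime).card ≤ 1 := by
        rw [card_le_one]
        intro i hi j hj
        by_contra hij
        obtain ⟨x, hx, hxp⟩ := (mem_filter.1 hi).2
        obtain ⟨y, hy, hyp⟩ := (mem_filter.1 hj).2
        exact hcon N hN i j hij ⟨x, hx, hxp⟩ y hy hyp
      have h5 : ((univ.filter fun j => ∃ x ∈ V j, ((N : ℤ) + x).toNat.Prime).card : ℝ) ≤ 1 := by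
        exact_mod_cast h4
      exact mul_le_of_le_one_left (hμ0 N) h5
    have h4 : ∑ N ∈ T', μ N ≤ 1 := by
      rw [← hμ1]
      exact sum_le_sum_of_subset_of_nonneg (filter_subset _ _) fun N _ _ => hμ0 N
    have h5 : (k : ℝ) * (κ - (k + 1) * η) = κ * k - (κ * k - 1) / 2 := by
      rw [← hη1]
      ring
    linarith
  have hNT := mem_filter.1 hN
  obtain ⟨x, y, hxy, ⟨i, j, hij', hx, hy⟩, hxp, hyp, hz⟩ :=
    gq_pair V hdis D N hD (hex N hNT.1) hij hi hj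
  -- the tuple
  choose b hb1 hb2 using hNT.2
  set a : Fin k → ℤ := Function.update (Function.update b i x) j y with ha
  have hai : a i = x := by
    rw [ha, Function.update_of_ne hij', Function.update_self]
  have haj : a j = y := by
    rw [ha, Function.update_self]
  have hal : ∀ l, a l ∈ V l ∧ Q ((N : ℤ) + a l).toNat := by
    intro l
    by_cases hlj : l = j
    · rw [hlj, haj]
      exact ⟨hy, hQ _ hyp⟩
    · by_cases hli : l = i
      · rw [hli, hai]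
        exact ⟨hx, hQ _ hxp⟩
      · rw [ha, Function.update_of_ne hlj, Function.update_of_ne hli]
        exact ⟨hb1 l, hb2 l⟩
  have h9 := hN0 a (Fintype.mem_piFinset.2 fun l => (hal l).1) i j (by rw [hai, haj]; exact hxy) N
    ⟨by rw [hai, haj]; exact ⟨hxp, hyp, hz⟩, fun l => (hal l).2⟩
  have h10 := hT0 N hNT.1
  omega

end Pool.Agent.H21.CP
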