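import Pool.Agent.H92.MM.Main

/-!
MP_8923e7_nt, project CP.  The measure theorem for `Q2` (from `Pool.Agent.H92.MM.loc_final`).
-/

namespace Pool.Agent.H21.CP

theorem med (k : ℕ) (hk : 1 ≤ k) : MED (13 / 50) Q2 k :=
  MED_of_LocD (13 / 50) (by norm_num) (by norm_num) Q2 k (Pool.Agent.H92.MM.loc_final k hk)

end Pool.Agent.H21.CP
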