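import Pool.Agent.H21.CP.LocD
import Pool.Agent.H21.QT.Df

/-!
MP_8923e7_nt, project CP.  The measure theorem for blocks of integers.

From `MED` (natural shifts): remove one element `y j` of each block, translate, and kill `y j` and all other
numbers of absolute value at most `D`.
-/

namespace Pool.Agent.H21.CP

open Finset Pool.Agent.H21.QT

open Classical in
theorem blk_chen (κ : ℝ) (Q : ℕ → Prop) (k : ℕ) (h : MED κ Q k) (η : ℝ) (hη : 0 < η) :
    ∃ s : ℕ, 1 ≤ s ∧ ∀ V : Fin k → Finset ℤ, (∀ j j', j ≠ j' → Disjoint (V j) (V j')) →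
      (∀ j, (V j).card = s) → AdB V → ∀ D N0 : ℕ,
      ∃ (T : Finset ℕ) (μ : ℕ → ℝ), (∀ N ∈ T, N0 < N) ∧ (∀ N, 0 ≤ μ N) ∧ ∑ N ∈ T, μ N = 1 ∧
        (∀ N ∈ T, ∀ y : ℤ, |y| ≤ D → ((N : ℤ) + y).toNat.Prime → ∃ j, y ∈ V j) ∧
        (∀ N ∈ T, ∀ j, ∃ x ∈ V j, ¬ ((N : ℤ) + x).toNat.Prime) ∧
        (∀ j, κ - η ≤ ∑ N ∈ T.filter (fun N : ℕ => ∃ x ∈ V j, ((N : ℤ) + x).toNat.Prime), μ N) ∧
        ∀ j, 1 - η ≤ ∑ N ∈ T.filter (fun N : ℕ => ∃ x ∈ V j, Q ((N : ℤ) + x).toNat), μ N := by
  obtain ⟨s, hs, h⟩ := h η hη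
  refine ⟨s + 1, by omega, ?_⟩
  intro V hV1 hV2 hV3 D N0
  -- the killed elements
  have hne : ∀ j, ∃ y, y ∈ V j := by
    intro j
    have : 0 < (V j).card := by rw [hV2]; omega
    exact Finset.card_pos.mp this
  choose y0 hy0 using hne
  -- translation
  set M : ℕ := D + ∑ j, ∑ x ∈ V j, x.natAbs with hM
  have hMx : ∀ j, ∀ x ∈ V j, D + x.natAbs ≤ M := by
    intro j x hx
    have h1 : x.natAbs ≤ ∑ j, ∑ x ∈ V j, x.natAbs :=
      (single_le_sum (f := fun x : ℤ => x.natAbs) (fun _ _ => Nat.zero_le _) hx).trans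
        (single_le_sum (f := fun j => ∑ x ∈ V j, x.natAbs) (fun _ _ => Nat.zero_le _)
          (mem_univ j))
    omega
  set V' : Fin k → Finset ℕ := fun j => ((V j).erase (y0 j)).image (fun x : ℤ => (x + M).toNat)
    with hV'
  have hcast : ∀ j, ∀ x ∈ V j, (((x + M).toNat : ℕ) : ℤ) = x + M := fun j x hx =>
    Int.toNat_of_nonneg (by
      have := hMx j x hx
      omega)
  have hV'1 : ∀ j j', j ≠ j' → Disjoint (V' j) (V' j') := by
    intro j j' hjj
    rw [Finset.disjoint_left]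
    intro y hy hy'
    obtain ⟨x, hx, hxy⟩ := mem_image.1 hy
    obtain ⟨x', hx', hxy'⟩ := mem_image.1 hy'
    have hx := mem_of_mem_erase hx
    have hx' := mem_of_mem_erase hx'
    have h1 := hcast j x hx
    have h2 := hcast j' x' hx'
    have h3 : x = x' := by
      have : (((x + M).toNat : ℕ) : ℤ) = (((x' + M).toNat : ℕ) : ℤ) := by rw [hxy, hxy']
      linarith
    rw [← h3] at hx'
    exact Finset.disjoint_left.1 (hV1 j j' hjj) hx hx'
  have hV'2 : ∀ j, (V' j).card = s := by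
    intro j
    have h5 : ((V j).erase (y0 j)).card = s := by
      rw [card_erase_of_mem (hy0 j), hV2]
      rfl
    rw [← h5]
    apply card_image_of_injOn
    intro x hx x' hx' hxx
    have hx := mem_of_mem_erase (mem_coe.1 hx)
    have hx' := mem_of_mem_erase (mem_coe.1 hx')
    have h1 := hcast j x hx
    have h2 := hcast j x' hx'
    have h3 : (((x + M).toNat : ℕ) : ℤ) = (((x' + M).toNat : ℕ) : ℤ) := by
      have : (x + M).toNat = (x' + M).toNat := hxx
      rw [this]
    linarith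
  have hV'3 : ∀ p : ℕ, p.Prime → ∃ b : ℕ, ∀ j, ∀ x ∈ V' j, ¬ p ∣ b + x := by
    intro p hp
    obtain ⟨b, hb⟩ := hV3 p hp
    have hp0 : (0 : ℤ) < p := by exact_mod_cast hp.pos
    refine ⟨((b - M) % p).toNat, fun j y hy hdvd => ?_⟩
    obtain ⟨x, hx, rfl⟩ := mem_image.1 hy
    have hx := mem_of_mem_erase hx
    apply hb j x hx
    have h1 : (((b - M) % p).toNat : ℤ) = (b - M) % p :=
      Int.toNat_of_nonneg (Int.emod_nonneg _ hp0.ne')
    have h2 : (p : ℤ) ∣ ((((b - M) % p).toNat + (x + M).toNat : ℕ) : ℤ) := by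
      exact_mod_cast hdvd
    rw [Nat.cast_add, h1, hcast j x hx] at h2
    have h3 : (p : ℤ) ∣ (b - M) - (b - M) % p := Int.dvd_self_sub_emod
    have h4 : b + x = ((b - M) - (b - M) % p) + ((b - M) % p + (x + M)) := by ring
    rw [h4]
    exact dvd_add h3 h2
  obtain ⟨T, μ, hT, hD, hμ, h1, hP, hA⟩ := h V' hV'1 hV'2 hV'3 (2 * M) N0
  have hval : ∀ (N : ℕ) (y : ℤ), 0 ≤ y + M → (((N + M : ℕ) : ℤ) + y).toNat = N + (y + M).toNat := by
    intro N y hy
    omega
  have hinj : Function.Injective (fun N : ℕ => N + M) := fun a b hab => by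
    simp only at hab
    omega
  have hM0 : ∀ j, ∀ x ∈ V j, 0 ≤ x + M := by
    intro j x hx
    have := hMx j x hx
    omega
  -- primes are not at killed elements
  have hkill : ∀ N ∈ T, ∀ y : ℤ, |y| ≤ M → (((N + M : ℕ) : ℤ) + y).toNat.Prime →
      ∃ j, y ∈ V j ∧ y ≠ y0 j := by
    intro N hN y hy hp
    have hy' := abs_le.1 hy
    rw [hval N y (by omega)] at hp
    obtain ⟨j, hj⟩ := hD N hN (y + M).toNat (by omega) hp
    obtain ⟨x, hx, hxy⟩ := mem_image.1 hj
    have h2 := hcast j x (mem_of_mem_erase hx)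
    have h3 : x = y := by
      have : (((x + M).toNat : ℕ) : ℤ) = (((y + M).toNat : ℕ) : ℤ) := by rw [hxy]
      omega
    rw [← h3]
    exact ⟨j, mem_of_mem_erase hx, ne_of_mem_erase hx⟩
  refine ⟨T.image (fun N => N + M), fun N => μ (N - M), ?_, fun N => hμ _, ?_, ?_, ?_, ?_, ?_⟩
  · intro N hN
    obtain ⟨N', hN', rfl⟩ := mem_image.1 hN
    have := hT N' hN'
    show N0 < N' + M
    omega
  · rw [sum_image (fun a _ b _ hab => hinj hab), ← h1]
    refine sum_congr rfl fun N _ => ?_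
    rw [Nat.add_sub_cancel]
  · intro N hN y hy hp
    obtain ⟨N', hN', rfl⟩ := mem_image.1 hN
    have hDM : (D : ℤ) ≤ M := by
      have : D ≤ M := by omega
      exact_mod_cast this
    obtain ⟨j, hj, -⟩ := hkill N' hN' y (hy.trans hDM) hp
    exact ⟨j, hj⟩
  · intro N hN j
    obtain ⟨N', hN', rfl⟩ := mem_image.1 hN
    refine ⟨y0 j, hy0 j, fun hp => ?_⟩
    have h2 : |y0 j| ≤ (M : ℤ) := by
      have := hMx j _ (hy0 j)
      rw [Int.abs_eq_natAbs]
      omega
    obtain ⟨j', hj', hne⟩ := hkill N' hN' (y0 j) h2 hp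
    have h3 : j' = j := by
      by_contra hcon
      exact Finset.disjoint_left.1 (hV1 j' j hcon) hj' (hy0 j)
    rw [h3] at hne
    exact hne rfl
  · intro j
    refine (hP j (Classical.decPred _)).trans (le_of_eq ?_)
    rw [filter_image, sum_image (fun a _ b _ hab => hinj hab)]
    have h5 : T.filter (fun N => ∃ x ∈ V' j, (N + x).Prime) =
        T.filter (fun N : ℕ => ∃ x ∈ V j, (((N + M : ℕ) : ℤ) + x).toNat.Prime) := by
      apply filter_congr
      intro N hN
      constructor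
      · rintro ⟨z, hz, hzp⟩
        obtain ⟨x, hx, rfl⟩ := mem_image.1 hz
        have hx' := mem_of_mem_erase hx
        refine ⟨x, hx', ?_⟩
        rw [hval N x (hM0 j x hx')]
        exact hzp
      · rintro ⟨x, hx, hxp⟩
        have h6 : |x| ≤ (M : ℤ) := by
          have := hMx j _ hx
          rw [Int.abs_eq_natAbs]
          omega
        obtain ⟨j', hj', hne⟩ := hkill N hN x h6 hxp
        have h7 : j' = j := by
          by_contra hcon
          exact Finset.disjoint_left.1 (hV1 j' j hcon) hj' hx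
        rw [h7] at hne
        refine ⟨(x + M).toNat, mem_image.2 ⟨x, mem_erase.2 ⟨hne, hx⟩, rfl⟩, ?_⟩
        rw [hval N x (hM0 j x hx)] at hxp
        exact hxp
    have h6 : ∀ N, μ N = μ ((N + M) - M) := fun N => by rw [Nat.add_sub_cancel]
    rw [sum_congr rfl fun N _ => h6 N]
    apply sum_congr _ fun _ _ => rfl
    ext N
    have h7 := Finset.ext_iff.1 h5 N
    simp only [mem_filter] at h7 ⊢
    exact h7
  · intro j
    refine (hA j inferInstance).trans ?_
    rw [filter_image, sum_image (fun a _ b _ hab => hinj hab)]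
    have h6 : ∀ N, μ N = μ ((N + M) - M) := fun N => by rw [Nat.add_sub_cancel]
    rw [sum_congr rfl fun N _ => h6 N]
    apply sum_le_sum_of_subset_of_nonneg
    · intro N hN
      rw [mem_filter] at hN ⊢
      refine ⟨hN.1, ?_⟩
      obtain ⟨z, hz, hzp⟩ := hN.2
      obtain ⟨x, hx, rfl⟩ := mem_image.1 hz
      have hx' := mem_of_mem_erase hx
      refine ⟨x, hx', ?_⟩
      rw [hval N x (hM0 j x hx')]
      exact hzp
    · intro N _ _
      exact hμ _

end Pool.Agent.H21.CP
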