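import Mathlib.NumberTheory.Primorial
import Mathlib

/-!
MP_8923e7_nt, project CP.  A residue class modulo a primorial that is coprime to all shifts of `U` and
kills all other shifts `y ≤ D`.
-/

namespace Pool.Agent.H21.CP

open Finset

theorem kill2 (U : Finset ℕ) (hadm : ∀ p : ℕ, p.Prime → ∃ b : ℕ, ∀ x ∈ U, ¬ p ∣ b + x) (D w1 : ℕ) :
    ∃ w b : ℕ, w1 ≤ w ∧ (∀ x ∈ U, Nat.Coprime (b + x) (primorial w)) ∧
      ∀ y ≤ D, y ∉ U → ∃ p : ℕ, p.Prime ∧ p ≤ w ∧ p ∣ b + y := by
  classical
  set M : ℕ := w1 + U.sup id + D + 1 with hM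
  have hU : ∀ x ∈ U, x < M := by
    intro x hx
    have : id x ≤ U.sup id := Finset.le_sup hx
    simp only [id] at this
    omega
  set q : ℕ → ℕ := fun y => Nat.nth Nat.Prime (M + y) with hq
  have hinf := Nat.infinite_setOfPred_prime
  have hqp : ∀ y, (q y).Prime := fun y => Nat.prime_nth_prime (M + y)
  have hqlt : ∀ y y', y < y' → q y < q y' := fun y y' h => Nat.nth_strictMono hinf (by omega)
  have hqinj : ∀ y y', q y = q y' → y = y' := by
    intro y y' h
    rcases lt_trichotomy y y' with h1 | h1 | h1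
    · have := hqlt _ _ h1
      omega
    · exact h1
    · have := hqlt _ _ h1
      omega
  have hqM : ∀ y, M + y ≤ q y := by
    intro y
    have h := Nat.add_two_le_nth_prime (M + y)
    show M + y ≤ Nat.nth Nat.Prime (M + y)
    omega
  -- residues
  choose! c hc using hadm
  set r : ℕ → ℕ := fun p => if h : ∃ y, y ∉ U ∧ q y = p then p - (Classical.choose h) % p else c p
    with hr
  set w : ℕ := q D with hw
  set S : Finset ℕ := (range (w + 1)).filter Nat.Prime with hS
  have hSp : ∀ p ∈ S, p.Prime := fun p hp => (mem_filter.1 hp).2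
  have hpair : Set.Pairwise (S : Set ℕ) (Function.onFun Nat.Coprime id) := by
    intro p hp p' hp' hne
    exact (Nat.coprime_primes (hSp p hp) (hSp p' hp')).2 hne
  obtain ⟨b, hb⟩ := Nat.chineseRemainderOfFinset r id S (fun p hp => (hSp p hp).ne_zero) hpair
  have hb' : ∀ p : ℕ, p.Prime → p ≤ w → b ≡ r p [MOD p] := by
    intro p hp hpw
    exact hb p (mem_filter.2 ⟨mem_range.2 (by omega), hp⟩)
  have hry : ∀ y, y ∉ U → (q y) ∣ r (q y) + y := by
    intro y hy
    have hex : ∃ y', y' ∉ U ∧ q y' = q y := ⟨y, hy, rfl⟩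
    have h1 : Classical.choose hex = y := hqinj _ _ (Classical.choose_spec hex).2
    have h2 : r (q y) = q y - y % q y := by
      rw [hr]
      simp only [dif_pos hex, h1]
    have h3 : y < q y := by
      have := hqM y
      omega
    rw [h2, Nat.mod_eq_of_lt h3]
    have : q y - y + y = q y := by omega
    rw [this]
  refine ⟨w, b, ?_, ?_, ?_⟩
  · have := hqM D
    omega
  · intro x hx
    by_contra hcop
    obtain ⟨p, hp, hpx, hpw⟩ := Nat.Prime.not_coprime_iff_dvd.1 hcop
    have hpw' : p ≤ w := (Nat.Prime.dvd_primorial_iff hp).1 hpw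
    have h1 := hb' p hp hpw'
    have h2 : p ∣ r p + x := by
      have h3 : b + x ≡ r p + x [MOD p] := Nat.ModEq.add_right x h1
      exact (Nat.modEq_zero_iff_dvd.1 (h3.symm.trans (Nat.modEq_zero_iff_dvd.2 hpx)))
    by_cases hex : ∃ y, y ∉ U ∧ q y = p
    · obtain ⟨y, hy, rfl⟩ := hex
      have h3 := hry y hy
      have h4 : x ≡ y [MOD q y] := by
        have h5 : r (q y) + x ≡ r (q y) + y [MOD q y] :=
          (Nat.modEq_zero_iff_dvd.2 h2).trans (Nat.modEq_zero_iff_dvd.2 h3).symm
        exact Nat.ModEq.add_left_cancel' _ h5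
      have h5 : x < q y := by
        have := hqM y
        have := hU x hx
        omega
      have h6 : y < q y := by
        have := hqM y
        omega
      have h7 : x = y := by
        have := h4
        unfold Nat.ModEq at this
        rwa [Nat.mod_eq_of_lt h5, Nat.mod_eq_of_lt h6] at this
      exact hy (h7 ▸ hx)
    · have h3 : r p = c p := by
        rw [hr]
        simp only [dif_neg hex]
      rw [h3] at h2
      exact hc p hp x hx h2
  · intro y hyD hy
    refine ⟨q y, hqp y, ?_, ?_⟩
    · rcases Nat.lt_or_ge y D with h | h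
      · exact (hqlt _ _ h).le
      · have : y = D := le_antisymm hyD h
        rw [this]
    · have hle : q y ≤ w := by
        rcases Nat.lt_or_ge y D with h | h
        · exact (hqlt _ _ h).le
        · have : y = D := le_antisymm hyD h
          rw [this]
      have h1 := hb' (q y) (hqp y) hle
      have h2 : b + y ≡ r (q y) + y [MOD q y] := Nat.ModEq.add_right y h1
      exact Nat.modEq_zero_iff_dvd.1 (h2.trans (Nat.modEq_zero_iff_dvd.2 (hry y hy)))

end Pool.Agent.H21.CP
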