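import Pool.Agent.H21.CP.Mo
import Pool.Agent.H21.CP.Kill

/-!
MP_8923e7_nt, project CP.  The local information with control of all other shifts `y ≤ D`.

`Q2 n`: `n ≥ 2` has at most two prime factors (with multiplicity), all of them `> n^(1/8)`.
`LocD c Q k`: for `e > 0` there is `C1` such that for every `P0` there is a block size `s` such that for all
disjoint blocks `V j` of `s` shifts with admissible union there are a probability measure `μ` on large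
integers and functions `lo x N` (positive only if `N + x` has property `Q`) and `g x N ≥ 0` (`≥ 1` if `N + x`
is prime), whose correlations inside a block have the constant `1 + e`, and `μ(N + x prime) ≥ (1-e) c E g_x`;
moreover `N + y`, `y ≤ D`, is prime only if `y` is in one of the blocks.
`MED c Q k`: the resulting measure theorem.
-/

namespace Pool.Agent.H21.CP

open Finset

/-- at most two prime factors, all larger than `n^(1/8)` -/
def Q2 (n : ℕ) : Prop := 2 ≤ n ∧ n.primeFactorsList.length ≤ 2 ∧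
  ∀ p : ℕ, p.Prime → p ∣ n → n < p ^ 8

theorem Q2_prime (p : ℕ) (hp : p.Prime) : Q2 p := by
  refine ⟨hp.two_le, ?_, ?_⟩
  · rw [Nat.primeFactorsList_prime hp]
    simp
  · intro q hq hqp
    have h1 : q = p := (Nat.prime_dvd_prime_iff_eq hq hp).1 hqp
    rw [h1]
    exact lt_self_pow₀ hp.one_lt (by norm_num)

/-- the local information, with control of the shifts `y ≤ D` outside the blocks -/
def LocD (c : ℝ) (Q : ℕ → Prop) (k : ℕ) : Prop := ∀ e : ℝ, 0 < e → ∃ C1 : ℝ, ∀ P0 : ℝ, ∃ s : ℕ, 1 ≤ s ∧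
  ∀ V : Fin k → Finset ℕ, (∀ j j', j ≠ j' → Disjoint (V j) (V j')) → (∀ j, (V j).card = s) →
  (∀ p : ℕ, p.Prime → ∃ b : ℕ, ∀ j, ∀ x ∈ V j, ¬ p ∣ b + x) → ∀ D N0 : ℕ,
    ∃ (T : Finset ℕ) (μ : ℕ → ℝ) (lo g : ℕ → ℕ → ℝ),
      (∀ N ∈ T, N0 < N) ∧ (∀ N ∈ T, ∀ y : ℕ, y ≤ D → (N + y).Prime → ∃ j, y ∈ V j) ∧
      (∀ N, 0 ≤ μ N) ∧ ∑ N ∈ T, μ N = 1 ∧
      (∀ j, ∀ x ∈ V j, ∀ N ∈ T, 0 < lo x N → Q (N + x)) ∧
      (∀ j, ∀ x ∈ V j, ∀ N ∈ T, 0 ≤ g x N ∧ ((N + x).Prime → 1 ≤ g x N)) ∧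
      (∀ j, Mom T μ (V j) lo e C1 P0) ∧ (∀ j, Mom T μ (V j) g e C1 P0) ∧
      (∀ j, ∀ x ∈ V j, ∀ _ : DecidablePred (fun N => (N + x).Prime),
        (1 - e) * c * Ex T μ (g x) ≤ ∑ N ∈ T.filter (fun N => (N + x).Prime), μ N)

/-- the measure theorem -/
def MED (c : ℝ) (Q : ℕ → Prop) (k : ℕ) : Prop := ∀ η : ℝ, 0 < η → ∃ s : ℕ, 1 ≤ s ∧
  ∀ V : Fin k → Finset ℕ, (∀ j j', j ≠ j' → Disjoint (V j) (V j')) → (∀ j, (V j).card = s) →
  (∀ p : ℕ, p.Prime → ∃ b : ℕ, ∀ j, ∀ x ∈ V j, ¬ p ∣ b + x) → ∀ D N0 : ℕ,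
    ∃ (T : Finset ℕ) (μ : ℕ → ℝ),
      (∀ N ∈ T, N0 < N) ∧ (∀ N ∈ T, ∀ y : ℕ, y ≤ D → (N + y).Prime → ∃ j, y ∈ V j) ∧
      (∀ N, 0 ≤ μ N) ∧ ∑ N ∈ T, μ N = 1 ∧
      (∀ j, ∀ _ : DecidablePred (fun N => ∃ x ∈ V j, (N + x).Prime),
        c - η ≤ ∑ N ∈ T.filter (fun N => ∃ x ∈ V j, (N + x).Prime), μ N) ∧
      (∀ j, ∀ _ : DecidablePred (fun N => ∃ x ∈ V j, Q (N + x)),
        1 - η ≤ ∑ N ∈ T.filter (fun N => ∃ x ∈ V j, Q (N + x)), μ N)

theorem MED_of_LocD (c : ℝ) (hc0 : 0 ≤ c) (hc1 : c ≤ 1) (Q : ℕ → Prop) (k : ℕ) (h : LocD c Q k) :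
    MED c Q k := by
  classical
  intro η hη
  -- parameters
  set e : ℝ := min (η / 4) (min (1 / 2) (η ^ 2 / 8)) with hedef
  have he0 : 0 < e := by
    rw [hedef]
    positivity
  have he1 : e ≤ η / 4 := min_le_left _ _
  have hec : c * e ≤ η / 4 := by nlinarith
  have he2 : e ≤ 1 / 2 := (min_le_right _ _).trans (min_le_left _ _)
  have he3 : e ≤ η ^ 2 / 8 := (min_le_right _ _).trans (min_le_right _ _)
  obtain ⟨C1', h⟩ := h e he0
  set C1 : ℝ := max C1' 0 with hC1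
  have hC10 : 0 ≤ C1 := le_max_right _ _
  set P0 : ℝ := C1 / e + 1 with hP0def
  have hP0 : 0 < P0 := by positivity
  have hCP : C1 / P0 ≤ e := by
    rw [div_le_iff₀ hP0, hP0def, mul_add, mul_div_cancel₀ _ he0.ne']
    linarith
  obtain ⟨s, hs, h⟩ := h P0
  refine ⟨s, hs, fun V hV1 hV2 hV3 D N0 => ?_⟩
  obtain ⟨T, μ, lo, g, hT, hD, hμ, h1, hlo, hg, hMlo, hMg, hpr⟩ := h V hV1 hV2 hV3 D N0
  have hmono : ∀ (j : Fin k) (f : ℕ → ℕ → ℝ), Mom T μ (V j) f e C1' P0 →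
      Mom T μ (V j) f e C1 P0 := by
    rintro j f ⟨a, b, c, d⟩
    exact ⟨a, fun x hx => (b x hx).trans (mul_le_mul_of_nonneg_right (le_max_left _ _) (a x hx)),
      c, d⟩
  refine ⟨T, μ, hT, hD, hμ, h1, ?_, ?_⟩
  · intro j inst
    have h2 := block_prime hμ h1 he0.le hC10 hP0 (hmono j g (hMg j))
      (fun x N => (N + x).Prime) (hg j)
      (fun x hx => hpr j x hx (Classical.decPred _))
    have h3 : Real.sqrt (e + C1 / P0) ≤ η / 2 := by
      rw [Real.sqrt_le_left (by positivity)]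
      nlinarith
    have h4 : c - η ≤ (1 - e) * c - Real.sqrt (e + C1 / P0) := by nlinarith
    refine h4.trans (h2.trans (le_of_eq ?_))
    congr 1
    ext N
    simp only [mem_filter]
  · intro j inst
    have h2 := block_pos hμ h1 he0.le hC10 hP0 (hmono j lo (hMlo j))
    have h4 : 1 - η ≤ 1 - (e + C1 / P0) := by linarith
    refine h4.trans (h2.trans ?_)
    apply sum_le_sum_of_subset_of_nonneg
    · intro N hN
      rw [mem_filter] at hN ⊢
      refine ⟨hN.1, ?_⟩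
      obtain ⟨x, hx, hx0⟩ : ∃ x ∈ V j, 0 < lo x N := by
        by_contra hno
        push Not at hno
        exact absurd (sum_nonpos hno) (not_le.2 hN.2)
      exact ⟨x, hx, hlo j x hx N hN.1 hx0⟩
    · intro N _ _
      exact hμ N

end Pool.Agent.H21.CP
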