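import Mathlib

/-!
MP_8923e7_nt, project CP.  Second moments: `Ex`, `Mom`, the variance of a block sum, and its consequences
`block_pos`, `block_prime`.
-/

namespace Pool.Agent.H21.CP

open Finset

/-- expectation -/
noncomputable def Ex (T : Finset ℕ) (μ : ℕ → ℝ) (f : ℕ → ℝ) : ℝ := ∑ N ∈ T, μ N * f N

/-- second moment information for a block -/
def Mom (T : Finset ℕ) (μ : ℕ → ℝ) (B : Finset ℕ) (f : ℕ → ℕ → ℝ) (e C1 P0 : ℝ) : Prop :=
  (∀ x ∈ B, 0 ≤ Ex T μ (f x)) ∧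
  (∀ x ∈ B, Ex T μ (fun N => f x N ^ 2) ≤ C1 * Ex T μ (f x)) ∧
  (∀ x ∈ B, ∀ y ∈ B, x ≠ y → Ex T μ (fun N => f x N * f y N) ≤
    (1 + e) * (Ex T μ (f x) * Ex T μ (f y))) ∧
  P0 ≤ ∑ x ∈ B, Ex T μ (f x)

/-- variance of the block sum -/
theorem var_block {T : Finset ℕ} {μ : ℕ → ℝ} (h1 : ∑ N ∈ T, μ N = 1) {B : Finset ℕ}
    {f : ℕ → ℕ → ℝ} {e C1 P0 : ℝ} (he : 0 ≤ e) (h : Mom T μ B f e C1 P0) :
    Ex T μ (fun N => ((∑ x ∈ B, f x N) - ∑ x ∈ B, Ex T μ (f x)) ^ 2) ≤
      e * (∑ x ∈ B, Ex T μ (f x)) ^ 2 + C1 * ∑ x ∈ B, Ex T μ (f x) := by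
  classical
  obtain ⟨h0, hd, hp, -⟩ := h
  set m : ℝ := ∑ x ∈ B, Ex T μ (f x) with hm
  have hlin : Ex T μ (fun N => ∑ x ∈ B, f x N) = m := by
    unfold Ex
    simp_rw [mul_sum]
    rw [sum_comm]
    rfl
  have hsq : Ex T μ (fun N => (∑ x ∈ B, f x N) ^ 2) ≤ (1 + e) * m ^ 2 + C1 * m := by
    have h2 : Ex T μ (fun N => (∑ x ∈ B, f x N) ^ 2) =
        ∑ x ∈ B, ∑ y ∈ B, Ex T μ (fun N => f x N * f y N) := by
      unfold Ex
      simp_rw [sq, sum_mul_sum, mul_sum]
      rw [sum_comm]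
      apply sum_congr rfl
      intro x _
      rw [sum_comm]
    rw [h2]
    have h3 : ∀ x ∈ B, ∑ y ∈ B, Ex T μ (fun N => f x N * f y N) ≤
        (1 + e) * (Ex T μ (f x) * m) + C1 * Ex T μ (f x) := by
      intro x hx
      rw [← add_sum_erase B _ hx]
      have h4 : ∑ y ∈ B.erase x, Ex T μ (fun N => f x N * f y N) ≤
          ∑ y ∈ B.erase x, (1 + e) * (Ex T μ (f x) * Ex T μ (f y)) := by
        apply sum_le_sum
        intro y hy
        rw [mem_erase] at hy
        exact hp x hx y hy.2 (Ne.symm hy.1)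
      have h5 : ∑ y ∈ B.erase x, (1 + e) * (Ex T μ (f x) * Ex T μ (f y)) ≤
          ∑ y ∈ B, (1 + e) * (Ex T μ (f x) * Ex T μ (f y)) := by
        apply sum_le_sum_of_subset_of_nonneg (erase_subset _ _)
        intro y hy _
        have := h0 x hx
        have := h0 y hy
        positivity
      have h6 : ∑ y ∈ B, (1 + e) * (Ex T μ (f x) * Ex T μ (f y)) =
          (1 + e) * (Ex T μ (f x) * m) := by
        rw [← mul_sum, ← mul_sum]
      have h7 : Ex T μ (fun N => f x N * f x N) ≤ C1 * Ex T μ (f x) := by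
        have := hd x hx
        simpa only [sq] using this
      linarith
    refine (sum_le_sum h3).trans (le_of_eq ?_)
    rw [sum_add_distrib, ← mul_sum, ← sum_mul, ← mul_sum, ← hm]
    ring
  have hexp : Ex T μ (fun N => ((∑ x ∈ B, f x N) - m) ^ 2) =
      Ex T μ (fun N => (∑ x ∈ B, f x N) ^ 2) - 2 * m * Ex T μ (fun N => ∑ x ∈ B, f x N) +
        m ^ 2 := by
    unfold Ex
    have h8 : ∀ N, μ N * ((∑ x ∈ B, f x N) - m) ^ 2 =
        μ N * (∑ x ∈ B, f x N) ^ 2 - 2 * m * (μ N * ∑ x ∈ B, f x N) + m ^ 2 * μ N := by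
      intro N
      ring
    simp_rw [h8]
    rw [sum_add_distrib, sum_sub_distrib, ← mul_sum, ← mul_sum, h1, mul_one]
  rw [hexp, hlin]
  nlinarith

/-- Markov -/
private theorem markov {T : Finset ℕ} {μ : ℕ → ℝ} (hμ : ∀ N, 0 ≤ μ N) (P : ℕ → Prop)
    [DecidablePred P] (f : ℕ → ℝ) (hf : ∀ N ∈ T, 0 ≤ f N) (c : ℝ)
    (hP : ∀ N ∈ T, P N → c ≤ f N) : c * ∑ N ∈ T.filter P, μ N ≤ Ex T μ f := by
  unfold Ex
  rw [mul_sum]
  calc ∑ N ∈ T.filter P, c * μ N ≤ ∑ N ∈ T.filter P, μ N * f N := by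
        apply sum_le_sum
        intro N hN
        rw [mem_filter] at hN
        have := hP N hN.1 hN.2
        nlinarith [hμ N]
    _ ≤ _ := sum_le_sum_of_subset_of_nonneg (filter_subset _ _)
        fun N hN _ => mul_nonneg (hμ N) (hf N hN)

open Classical in
/-- a block with a positive signed sum -/
theorem block_pos {T : Finset ℕ} {μ : ℕ → ℝ} (hμ : ∀ N, 0 ≤ μ N) (h1 : ∑ N ∈ T, μ N = 1)
    {B : Finset ℕ} {f : ℕ → ℕ → ℝ} {e C1 P0 : ℝ} (he : 0 ≤ e) (hC : 0 ≤ C1) (hP0 : 0 < P0)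
    (h : Mom T μ B f e C1 P0) :
    1 - (e + C1 / P0) ≤ ∑ N ∈ T.filter (fun N => 0 < ∑ x ∈ B, f x N), μ N := by
  have hv := var_block h1 he h
  set m : ℝ := ∑ x ∈ B, Ex T μ (f x) with hm
  have hmP : P0 ≤ m := h.2.2.2
  have hm0 : 0 < m := lt_of_lt_of_le hP0 hmP
  have h2 : m ^ 2 * ∑ N ∈ T.filter (fun N => ¬ 0 < ∑ x ∈ B, f x N), μ N ≤
      Ex T μ (fun N => ((∑ x ∈ B, f x N) - m) ^ 2) := by
    apply markov hμ
    · intro N _
      positivity
    · intro N _ hN
      push Not at hN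
      nlinarith
  have h3 : ∑ N ∈ T.filter (fun N => ¬ 0 < ∑ x ∈ B, f x N), μ N ≤ e + C1 / P0 := by
    have h4 : m ^ 2 * ∑ N ∈ T.filter (fun N => ¬ 0 < ∑ x ∈ B, f x N), μ N ≤
        m ^ 2 * (e + C1 / m) := by
      refine h2.trans (hv.trans (le_of_eq ?_))
      field_simp
    have h5 := le_of_mul_le_mul_left h4 (by positivity)
    have h6 : C1 / m ≤ C1 / P0 := by gcongr
    linarith
  have h4 := sum_filter_add_sum_filter_not T (fun N => 0 < ∑ x ∈ B, f x N) μ
  linarith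

open Classical in
/-- a block with a prime -/
theorem block_prime {T : Finset ℕ} {μ : ℕ → ℝ} (hμ : ∀ N, 0 ≤ μ N) (h1 : ∑ N ∈ T, μ N = 1)
    {B : Finset ℕ} {g : ℕ → ℕ → ℝ} {e C1 P0 c : ℝ} (he : 0 ≤ e) (hC : 0 ≤ C1) (hP0 : 0 < P0)
    (h : Mom T μ B g e C1 P0) (pr : ℕ → ℕ → Prop)
    (hg : ∀ x ∈ B, ∀ N ∈ T, 0 ≤ g x N ∧ (pr x N → 1 ≤ g x N))
    (hp : ∀ x ∈ B, c * Ex T μ (g x) ≤ ∑ N ∈ T.filter (fun N => pr x N), μ N) :
    c - Real.sqrt (e + C1 / P0) ≤
      ∑ N ∈ T.filter (fun N => ∃ x ∈ B, pr x N), μ N := by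
  have hv := var_block h1 he h
  set m : ℝ := ∑ x ∈ B, Ex T μ (g x) with hm
  have hmP : P0 ≤ m := h.2.2.2
  have hm0 : 0 < m := lt_of_lt_of_le hP0 hmP
  set Z : ℕ → ℝ := fun N => ∑ x ∈ B, g x N with hZ
  set X : ℕ → ℝ := fun N => ((B.filter (fun x => pr x N)).card : ℝ) with hX
  set E : ℕ → Prop := fun N => ∃ x ∈ B, pr x N with hE
  -- the number of primes
  have hXE : c * m ≤ Ex T μ X := by
    have h2 : Ex T μ X = ∑ x ∈ B, ∑ N ∈ T.filter (fun N => pr x N), μ N := by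
      unfold Ex
      have h3 : ∀ N, μ N * X N = ∑ x ∈ B, if pr x N then μ N else 0 := by
        intro N
        rw [hX]
        simp only [card_filter]
        push_cast
        rw [mul_sum]
        apply sum_congr rfl
        intro x _
        split_ifs <;> simp
      simp_rw [h3]
      rw [sum_comm]
      apply sum_congr rfl
      intro x _
      rw [sum_filter]
    rw [h2, hm, mul_sum]
    exact sum_le_sum hp
  -- comparison with Z on the event
  have hXZ : ∀ N ∈ T, X N ≤ (if E N then m else 0) + |Z N - m| := by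
    intro N hN
    split_ifs with hEN
    · have h3 : X N ≤ Z N := by
        rw [hX, hZ]
        simp only [card_filter]
        push_cast
        apply sum_le_sum
        intro x hx
        have h4 := hg x hx N hN
        split_ifs with h5
        · exact h4.2 h5
        · exact h4.1
      have h4 := le_abs_self (Z N - m)
      linarith
    · have h3 : X N = 0 := by
        rw [hX]
        simp only [Nat.cast_eq_zero, card_eq_zero]
        rw [filter_eq_empty_iff]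
        intro x hx hpx
        exact hEN ⟨x, hx, hpx⟩
      rw [h3]
      positivity
  have hEX : Ex T μ X ≤ m * ∑ N ∈ T.filter E, μ N + Ex T μ (fun N => |Z N - m|) := by
    unfold Ex
    calc ∑ N ∈ T, μ N * X N ≤ ∑ N ∈ T, μ N * ((if E N then m else 0) + |Z N - m|) :=
          sum_le_sum fun N hN => mul_le_mul_of_nonneg_left (hXZ N hN) (hμ N)
      _ = ∑ N ∈ T, (m * (if E N then μ N else 0) + μ N * |Z N - m|) := by
          apply sum_congr rfl
          intro N _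
          split_ifs <;> ring
      _ = _ := by
          rw [sum_add_distrib, ← mul_sum, ← sum_filter]
  -- Cauchy-Schwarz
  have hCS : Ex T μ (fun N => |Z N - m|) ≤ m * Real.sqrt (e + C1 / P0) := by
    have h3 : (Ex T μ (fun N => |Z N - m|)) ^ 2 ≤ Ex T μ (fun N => (Z N - m) ^ 2) := by
      unfold Ex
      have h4 := sum_mul_sq_le_sq_mul_sq T (fun N => Real.sqrt (μ N))
        (fun N => Real.sqrt (μ N) * |Z N - m|)
      have h5 : ∑ N ∈ T, Real.sqrt (μ N) * (Real.sqrt (μ N) * |Z N - m|) =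
          ∑ N ∈ T, μ N * |Z N - m| := by
        apply sum_congr rfl
        intro N _
        rw [← mul_assoc, Real.mul_self_sqrt (hμ N)]
      have h6 : ∑ N ∈ T, (Real.sqrt (μ N)) ^ 2 = 1 := by
        rw [← h1]
        apply sum_congr rfl
        intro N _
        rw [Real.sq_sqrt (hμ N)]
      have h7 : ∑ N ∈ T, (Real.sqrt (μ N) * |Z N - m|) ^ 2 = ∑ N ∈ T, μ N * (Z N - m) ^ 2 := by
        apply sum_congr rfl
        intro N _
        rw [mul_pow, Real.sq_sqrt (hμ N), sq_abs]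
      rw [h5, h6, h7, one_mul] at h4
      exact h4
    have h4 : Ex T μ (fun N => (Z N - m) ^ 2) ≤ m ^ 2 * (e + C1 / P0) := by
      refine hv.trans ?_
      have h5 : C1 * m ≤ m ^ 2 * (C1 / P0) := by
        have h6 : m * P0 ≤ m * m := mul_le_mul_of_nonneg_left hmP hm0.le
        have h7 : C1 * m = C1 / P0 * (m * P0) := by field_simp
        rw [h7]
        have h8 : 0 ≤ C1 / P0 := by positivity
        nlinarith
      nlinarith
    have h5 : 0 ≤ e + C1 / P0 := by positivity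
    have h6 : (Ex T μ (fun N => |Z N - m|)) ^ 2 ≤ (m * Real.sqrt (e + C1 / P0)) ^ 2 := by
      rw [mul_pow, Real.sq_sqrt h5]
      exact h3.trans h4
    exact le_of_sq_le_sq h6 (by positivity)
  have hfin : m * (c - Real.sqrt (e + C1 / P0)) ≤ m * ∑ N ∈ T.filter E, μ N := by
    linarith
  exact le_of_mul_le_mul_left hfin hm0

end Pool.Agent.H21.CP
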