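import Pool.Agent.H21.CP.Bc
import Pool.Agent.H21.QT.Hb

/-!
MP_8923e7_nt, project CP.  For almost all admissible `k`-tuples the pairs `(i, E)` which are realised, with all
`N + a_j` having property `Q`, cover every index with weight `(κ - η)/r`.
-/

namespace Pool.Agent.H21.CP

open Finset Pool.Agent.H21.QT

/-- for every subset `E'` of `E` there are infinitely many `N` for which the primes of colour `i` among the
`N + a_j` are exactly those with `j ∈ E'` and all `N + a_j` with `j ∉ E \ E'` have property `Q` -/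
def ReaQ (Q : ℕ → Prop) {r k : ℕ} (c : ℕ → Fin r) (a : Fin k → ℤ) (i : Fin r)
    (E : Finset (Fin k)) : Prop :=
  ∀ E' ⊆ E, {N : ℕ | (∀ j, PC c i N (a j) ↔ j ∈ E') ∧
    ∀ j, (j ∈ E → j ∈ E') → Q ((N : ℤ) + a j).toNat}.Infinite

/-- the covering property -/
def QuarterQ (κ : ℝ) (Q : ℕ → Prop) {r k : ℕ} (η : ℝ) (c : ℕ → Fin r) (a : Fin k → ℤ) : Prop :=
  ∃ w : Fin r → Finset (Fin k) → ℝ, (∀ i E, 0 ≤ w i E) ∧ ∑ i, ∑ E, w i E ≤ 1 ∧
    (∀ j, (κ - η) / r ≤ ∑ i, ∑ E ∈ univ.filter (fun E => j ∈ E), w i E) ∧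
    ∀ i E, 0 < w i E → ReaQ Q c a i E

open Classical in
/-- the mass of the `N` with a prime in block `j` and all blocks good -/
theorem good_mass {k : ℕ} (T : Finset ℕ) (μ : ℕ → ℝ) (hμ : ∀ N, 0 ≤ μ N) (h1 : ∑ N ∈ T, μ N = 1)
    (R A : Fin k → ℕ → Prop) (κ η : ℝ)
    (hR : ∀ j, κ - η ≤ ∑ N ∈ T.filter (R j), μ N)
    (hA : ∀ j, 1 - η ≤ ∑ N ∈ T.filter (A j), μ N) (j : Fin k) :
    κ - (k + 1) * η ≤ ∑ N ∈ (T.filter (fun N => ∀ i, A i N)).filter (R j), μ N := by
  have hbad : ∑ N ∈ T.filter (fun N => ¬ ∀ i, A i N), μ N ≤ k * η := by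
    have h2 : ∀ N ∈ T, (if ¬ ∀ i, A i N then μ N else 0) ≤
        ∑ i : Fin k, if ¬ A i N then μ N else 0 := by
      intro N _
      have h0 : ∀ i : Fin k, 0 ≤ if ¬ A i N then μ N else 0 := by
        intro i
        by_cases h8 : A i N
        · simp [h8]
        · simp [h8, hμ N]
      by_cases hN : ∀ i, A i N
      · rw [if_neg (not_not.2 hN)]
        exact sum_nonneg fun i _ => h0 i
      · rw [if_pos hN]
        push Not at hN
        obtain ⟨i, hi⟩ := hN
        have h7 := single_le_sum (f := fun i : Fin k => if ¬ A i N then μ N else 0)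
          (fun i _ => h0 i) (mem_univ i)
        simp only [if_pos hi] at h7
        exact h7
    rw [sum_filter]
    refine (sum_le_sum h2).trans ?_
    rw [sum_comm]
    calc ∑ i : Fin k, ∑ N ∈ T, (if ¬ A i N then μ N else 0) ≤ ∑ _i : Fin k, η := by
          refine sum_le_sum fun i _ => ?_
          rw [← sum_filter]
          have h3 := sum_filter_add_sum_filter_not T (A i) μ
          have h4 := hA i
          linarith
      _ = k * η := by
          rw [sum_const, card_univ, Fintype.card_fin, nsmul_eq_mul]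
  have h5 : ∑ N ∈ T.filter (R j), μ N ≤
      ∑ N ∈ (T.filter (fun N => ∀ i, A i N)).filter (R j), μ N +
        ∑ N ∈ T.filter (fun N => ¬ ∀ i, A i N), μ N := by
    rw [filter_filter, sum_filter, sum_filter, sum_filter, ← sum_add_distrib]
    refine sum_le_sum fun N _ => ?_
    have h0 := hμ N
    by_cases h6 : R j N <;> by_cases h7 : ∀ i, A i N <;> simp [h6, h7, h0]
  have h6 := hR j
  have h7 : ((k : ℝ) + 1) * η = k * η + η := by ring
  rw [h7]
  linarith

open Classical in
theorem quarter_chen (κ : ℝ) (Q : ℕ → Prop) (hQ : ∀ p : ℕ, p.Prime → Q p) (r k : ℕ) (hk : 1 ≤ k)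
    (hM : MED κ Q k) (η : ℝ) (hη : 0 < η) : ∃ δ C : ℝ, 0 < δ ∧ δ ≤ 1 ∧ 0 ≤ C ∧
    ∀ (c : ℕ → Fin r) (n : ℕ) (A : Fin k → Finset ℤ), 1 ≤ n → (∀ j, (A j).card ≤ n) →
      (((Fintype.piFinset A).filter (fun a => AdT a ∧ ¬ QuarterQ κ Q η c a)).card : ℝ) ≤
        C * (n : ℝ) ^ ((k : ℝ) - δ) := by
  have hkR : (1 : ℝ) ≤ k := by exact_mod_cast hk
  obtain ⟨s, hs, hl⟩ := blk_chen κ Q k hM (η / (k + 1)) (by positivity)
  obtain ⟨δ, C, hδ, hδ1, hC, H⟩ := hom_box k s (2 ^ (r * (2 ^ k * 2 ^ k))) hk hs
  refine ⟨δ, C, hδ, hδ1, hC, ?_⟩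
  intro c n A hn hA
  have hr : 0 < r := Fin.pos (c 0)
  have hr' : (0 : ℝ) < r := by exact_mod_cast hr
  let P : (Fin k → ℤ) → Fin r × (Finset (Fin k) × Finset (Fin k)) → Set ℕ :=
    fun a p => {N : ℕ | (∀ j, PC c p.1 N (a j) ↔ j ∈ p.2.2) ∧
      ∀ j, (j ∈ p.2.1 → j ∈ p.2.2) → Q ((N : ℤ) + a j).toNat}
  let col : (Fin k → ℤ) → Finset (Fin r × (Finset (Fin k) × Finset (Fin k))) :=
    fun a => univ.filter (fun p => (P a p).Infinite)
  have hcardq : Fintype.card (Finset (Fin r × (Finset (Fin k) × Finset (Fin k)))) ≤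
      2 ^ (r * (2 ^ k * 2 ^ k)) := by
    rw [Fintype.card_finset, Fintype.card_prod, Fintype.card_prod, Fintype.card_finset,
      Fintype.card_fin, Fintype.card_fin]
  suffices hmain : ∀ V : Fin k → Finset ℤ, (∀ j j', j ≠ j' → Disjoint (V j) (V j')) →
      (∀ j, (V j).card = s) → AdB V → (∀ a ∈ Fintype.piFinset V, ¬ QuarterQ κ Q η c a) →
      (∀ a ∈ Fintype.piFinset V, ∀ a' ∈ Fintype.piFinset V, col a = col a') → False by
    have h0 := H (Finset (Fin r × (Finset (Fin k) × Finset (Fin k)))) inferInstance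
      hcardq col (fun a => ¬ QuarterQ κ Q η c a) hmain n A hn hA
    convert h0
  intro V hdis hcard hadm hbad hcol
  have hmem : ∀ a ∈ Fintype.piFinset V, ∀ a' ∈ Fintype.piFinset V, ∀ p,
      (P a p).Infinite → (P a' p).Infinite := by
    intro a ha a' ha' p h
    have h1 : p ∈ col a := by
      simp only [col, mem_filter, mem_univ, true_and]
      exact h
    rw [hcol a ha a' ha'] at h1
    simp only [col, mem_filter, mem_univ, true_and] at h1
    exact h1
  obtain ⟨N0, hN0⟩ : ∃ N0 : ℕ,
      ∀ a ∈ Fintype.piFinset V, ∀ p N, N0 < N → N ∈ P a p → (P a p).Infinite := by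
    have hfin : (⋃ a ∈ Fintype.piFinset V, ⋃ p : Fin r × (Finset (Fin k) × Finset (Fin k)),
        (if (P a p).Infinite then ∅ else P a p)).Finite := by
      refine Set.Finite.biUnion (Fintype.piFinset V).finite_toSet ?_
      intro a _
      refine Set.finite_iUnion fun p => ?_
      split_ifs with h
      · exact Set.finite_empty
      · exact Set.not_infinite.mp h
    obtain ⟨N0, hN0⟩ := hfin.bddAbove
    refine ⟨N0, ?_⟩
    intro a ha p N hN hNP
    by_contra hcon
    have h1 : N ≤ N0 := by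
      apply hN0
      simp only [Set.mem_iUnion]
      refine ⟨a, ha, p, ?_⟩
      rw [if_neg hcon]
      exact hNP
    omega
  obtain ⟨T, μ, hT0, hμ0, hμ1, -, hfull, hμ4, hμ5⟩ := hl V hdis hcard hadm 0 N0
  let T' : Finset ℕ := T.filter (fun N : ℕ => ∀ j, ∃ x ∈ V j, Q ((N : ℤ) + x).toNat)
  let E : Fin r → ℕ → Finset (Fin k) := fun i N => univ.filter (fun j => ∃ x ∈ V j, PC c i N x)
  have key : ∀ N ∈ T', ∀ i, ∀ a' ∈ Fintype.piFinset V, ReaQ Q c a' i (E i N) := by
    intro N hN i a' ha' E' hE'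
    have hN2 := mem_filter.mp hN
    have hch : ∀ j, ∃ x ∈ V j, (PC c i N x ↔ j ∈ E') ∧
        ((j ∈ E i N → j ∈ E') → Q ((N : ℤ) + x).toNat) := by
      intro j
      by_cases hj : j ∈ E'
      · have := hE' hj
        simp only [E, mem_filter, mem_univ, true_and] at this
        obtain ⟨x, hx, hx'⟩ := this
        exact ⟨x, hx, by tauto, fun _ => hQ _ hx'.1⟩
      · by_cases hjE : j ∈ E i N
        · obtain ⟨x, hx, hx'⟩ := hfull N hN2.1 j
          refine ⟨x, hx, ?_, fun h => absurd (h hjE) hj⟩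
          constructor
          · intro h
            exact absurd h.1 hx'
          · intro h
            exact absurd h hj
        · obtain ⟨x, hx, hx'⟩ := hN2.2 j
          refine ⟨x, hx, ?_, fun _ => hx'⟩
          constructor
          · intro h
            exfalso
            apply hjE
            simp only [E, mem_filter, mem_univ, true_and]
            exact ⟨x, hx, h⟩
          · intro h
            exact absurd h hj
    choose a ha ha2 using hch
    have ha3 : a ∈ Fintype.piFinset V := Fintype.mem_piFinset.mpr ha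
    exact hmem a ha3 a' ha' (i, (E i N, E')) (hN0 a ha3 (i, (E i N, E')) N (hT0 N hN2.1)
      ⟨fun j => (ha2 j).1, fun j => (ha2 j).2⟩)
  have hne : ∀ j, ∃ x, x ∈ V j := by
    intro j
    have : 0 < (V j).card := by
      rw [hcard]
      omega
    exact Finset.card_pos.mp this
  choose a' ha' using hne
  have ha'' : a' ∈ Fintype.piFinset V := Fintype.mem_piFinset.mpr ha'
  apply hbad a' ha''
  refine ⟨fun i F => (1 / r) * ∑ N ∈ T'.filter (fun N => E i N = F), μ N, ?_, ?_, ?_, ?_⟩
  · intro i F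
    exact mul_nonneg (by positivity) (sum_nonneg fun N _ => hμ0 N)
  · have h1 : ∀ i : Fin r, ∑ F, (1 / (r : ℝ)) * ∑ N ∈ T'.filter (fun N => E i N = F), μ N ≤
        1 / r := by
      intro i
      rw [← mul_sum, sum_fiberwise]
      have h2 : ∑ N ∈ T', μ N ≤ 1 := by
        rw [← hμ1]
        exact sum_le_sum_of_subset_of_nonneg (filter_subset _ _) fun N _ _ => hμ0 N
      have h3 : (0 : ℝ) ≤ 1 / r := by positivity
      calc (1 / (r : ℝ)) * ∑ N ∈ T', μ N ≤ (1 / (r : ℝ)) * 1 := mul_le_mul_of_nonneg_left h2 h3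
        _ = 1 / r := by ring
    calc ∑ i : Fin r, ∑ F, (1 / (r : ℝ)) * ∑ N ∈ T'.filter (fun N => E i N = F), μ N
        ≤ ∑ _i : Fin r, (1 / (r : ℝ)) := sum_le_sum fun i _ => h1 i
      _ = 1 := by
        rw [sum_const, card_univ, Fintype.card_fin, nsmul_eq_mul]
        field_simp
  · intro j
    have h1 : ∀ i : Fin r, ∑ F ∈ univ.filter (fun F => j ∈ F),
        (1 / (r : ℝ)) * ∑ N ∈ T'.filter (fun N => E i N = F), μ N =
        (1 / (r : ℝ)) * ∑ N ∈ T', if j ∈ E i N then μ N else 0 := by
      intro i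
      rw [← mul_sum]
      congr 1
      rw [← sum_fiberwise (s := T') (g := fun N => E i N), sum_filter]
      refine sum_congr rfl fun F _ => ?_
      split_ifs with h
      · refine sum_congr rfl fun N hN => ?_
        rw [(mem_filter.mp hN).2, if_pos h]
      · symm
        refine sum_eq_zero fun N hN => ?_
        rw [(mem_filter.mp hN).2, if_neg h]
    rw [sum_congr rfl fun i _ => h1 i, ← mul_sum, sum_comm]
    have h2 : κ - η ≤ ∑ N ∈ T', ∑ i : Fin r, if j ∈ E i N then μ N else 0 := by
      have h3 := good_mass T μ hμ0 hμ1 (fun j N => ∃ x ∈ V j, ((N : ℤ) + x).toNat.Prime)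
        (fun j N => ∃ x ∈ V j, Q ((N : ℤ) + x).toNat) κ (η / (k + 1))
        (fun j => by
          refine (hμ4 j).trans (le_of_eq ?_)
          apply sum_congr _ fun _ _ => rfl
          ext N
          simp only [mem_filter])
        (fun j => by
          refine (hμ5 j).trans (le_of_eq ?_)
          apply sum_congr _ fun _ _ => rfl
          ext N
          simp only [mem_filter]) j
      have h4 : ((k : ℝ) + 1) * (η / (k + 1)) = η := by field_simp
      rw [h4] at h3
      have h3' : κ - η ≤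
          ∑ N ∈ T'.filter (fun N : ℕ => ∃ x ∈ V j, ((N : ℤ) + x).toNat.Prime), μ N := by
        refine h3.trans (le_of_eq ?_)
        apply sum_congr _ fun _ _ => rfl
        ext N
        simp only [T', mem_filter]
      refine h3'.trans ?_
      rw [sum_filter]
      refine sum_le_sum fun N _ => ?_
      split_ifs with h
      · obtain ⟨x, hx, hx'⟩ := ‹∃ x ∈ V j, ((N : ℤ) + x).toNat.Prime›
        have h4 : j ∈ E (c ((N : ℤ) + x).toNat) N := by
          simp only [E, mem_filter, mem_univ, true_and]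
          exact ⟨x, hx, hx', rfl⟩
        have h8 : ∀ i : Fin r, 0 ≤ if j ∈ E i N then μ N else 0 := by
          intro i
          split_ifs
          · exact hμ0 N
          · exact le_rfl
        have h9 := single_le_sum (f := fun i : Fin r => if j ∈ E i N then μ N else 0)
          (fun i _ => h8 i) (mem_univ (c ((N : ℤ) + x).toNat))
        simp only [if_pos h4] at h9
        exact h9
      · exact sum_nonneg fun i _ => by
          split_ifs
          · exact hμ0 N
          · exact le_rfl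
    calc (κ - η) / r = (1 / (r : ℝ)) * (κ - η) := by ring
      _ ≤ _ := mul_le_mul_of_nonneg_left h2 (by positivity)
  · intro i F hpos
    have h1 : ∃ N ∈ T'.filter (fun N => E i N = F), True := by
      by_contra hcon
      push Not at hcon
      have h2 : T'.filter (fun N => E i N = F) = ∅ := by
        ext N
        constructor
        · intro h
          exact absurd trivial (by
            have := hcon N h
            tauto)
        · intro h
          exact absurd h (notMem_empty _)
      dsimp only at hpos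
      rw [h2, sum_empty, mul_zero] at hpos
      exact lt_irrefl _ hpos
    obtain ⟨N, hN, -⟩ := h1
    obtain ⟨hN1, hN2⟩ := mem_filter.mp hN
    rw [← hN2]
    exact key N hN1 i a' ha''

end Pool.Agent.H21.CP
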